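import Pool.Agent.Lib.MP_edb5be_nt.ND.Iface

/-!
Project ND, third part (idea of helper76): arbitrary powers of the logarithm for invariant sets of
density zero. Statements of the modules.
-/

set_option autoImplicit false

namespace Pool.Agent.Lib.MP_edb5be_nt.ND

open Finset Pool.Agent.Lib.MP_0a5adf_nt.TP

open Classical in
/-- S1AP: as `S1AStatement`, with the error `z ^ (-A)`. -/
def S1APStatement : Prop :=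
  ∀ A : ℕ, ∃ C z₀ : ℝ, 0 < C ∧
    ∀ (d : Bool) (B : Set ℕ) (lo : ℕ) (g : ℝ → ℝ) (L z : ℝ) (i D k : ℕ),
    z₀ ≤ z → (lo : ℝ) ≤ 97 / 100 * z → InvA d B lo → 0 ≤ L → L ≤ z ^ (A + 3) → Bump L g →
    z / 75 ≤ i → (i : ℝ) ≤ z / 10 → D = dev ⌊z⌋₊ → k = ⌊z - mu * i⌋₊ →
    |Fm B g z - ∑ M ∈ (blk (k - 2 * D) (4 * D + 4)).filter (fun M => M ∈ B), 1 / (M : ℝ) *
        ∑ s ∈ typ i D, 3 ^ s * Pc s i s (sg d * M) * g (Real.logb 2 M + i - th * s - z)| ≤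
      C / z ^ A

open Classical in
/-- S1BP: as `S1BStatement`, with the error `z ^ (-A)`. -/
def S1BPStatement : Prop :=
  ∀ A : ℕ, ∃ C z₀ : ℝ, 0 < C ∧
    ∀ (d : Bool) (B : Set ℕ) (g : ℝ → ℝ) (L z : ℝ) (i m D k : ℕ),
    z₀ ≤ z → Bump L g → (i : ℝ) ≤ z / 10 → 4 * m ≤ i → z ≤ 300 * m →
    D = dev ⌊z⌋₊ → k = ⌊z - mu * i⌋₊ →
    |∑ M ∈ (blk (k - 2 * D) (4 * D + 4)).filter (fun M => M ∈ B), 1 / (M : ℝ) *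
        ∑ s ∈ typ i D, 3 ^ s * Pc s i s (sg d * M) * g (Real.logb 2 M + i - th * s - z) -
      ∑ c ∈ range (i + 1), PJ (i - c) (Rm d B g m c) (z - c + th * m)| ≤ C / z ^ A

/-- S1P. -/
def S1PStatement : Prop :=
  ∀ A : ℕ, ∃ C z₀ : ℝ, 0 < C ∧
    ∀ (d : Bool) (B : Set ℕ) (lo : ℕ) (g : ℝ → ℝ) (L z : ℝ) (i m : ℕ),
    z₀ ≤ z → (lo : ℝ) ≤ 97 / 100 * z → InvA d B lo → 0 ≤ L → L ≤ z ^ (A + 3) → Bump L g →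
    (i : ℝ) ≤ z / 10 → 4 * m ≤ i → z ≤ 300 * m →
    |Fm B g z - ∑ c ∈ range (i + 1), PJ (i - c) (Rm d B g m c) (z - c + th * m)| ≤ C / z ^ A

/-- TFP. -/
def TFPStatement : Prop :=
  ∀ A : ℕ, ∃ C u₀ : ℝ, 0 < C ∧ ∀ (d : Bool) (B : Set ℕ) (lo : ℕ) (g : ℝ → ℝ) (L u : ℝ) (J : ℕ),
    u₀ ≤ u → (lo : ℝ) ≤ 9 / 10 * u → InvA d B lo → 0 ≤ L → L ≤ u ^ (A + 2) → Bump L g →
    (J : ℝ) ≤ u / 20 → |Fm B g u - PJ J (Fm B g) u| ≤ C / u ^ A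

/-- TGP. -/
def TGPStatement : Prop :=
  ∀ A : ℕ, ∃ C u₀ : ℝ, 0 < C ∧ ∀ (d : Bool) (B : Set ℕ) (lo : ℕ) (u : ℝ) (J : ℕ),
    u₀ ≤ u → (lo : ℝ) ≤ 9 / 10 * u → InvA d B lo → (J : ℝ) ≤ u / 20 →
    |Gd B u - PJ J (Gd B) u| ≤ C / u ^ A

/-- COMP: comparison principle for the walk. -/
def CompStatement : Prop :=
  ∀ (A : ℕ) (C : ℝ), 1 ≤ A → 0 < C → ∃ K u₁ : ℝ, 0 < K ∧ 1 ≤ u₁ ∧
    ∀ (F : ℝ → ℝ) (M m u₀ : ℝ), u₁ ≤ u₀ → (∀ u, u₀ ≤ u → -M ≤ F u) →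
    (∀ u, u₀ + 1 ≤ u → (F (u - 1) + F (u + (th - 1))) / 2 - C / u ^ (A + 1) ≤ F u) →
    (∀ u, u₀ ≤ u → u ≤ u₀ + 1 → m ≤ F u) → ∀ u, u₀ ≤ u → m - K / u₀ ^ A ≤ F u

/-- DOUBLE: comparison of neighbouring blocks. -/
def DoubleStatement : Prop :=
  ∀ (d : Bool) (B : Set ℕ) (lo : ℕ) (u x : ℝ), InvA d B lo → (lo : ℝ) ≤ u → 0 ≤ x → x ≤ 1 →
    Gd B u / 2 ≤ Gd B (u + x) ∧ Gd B (u + x) ≤ 2 * Gd B (u + 1)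

/-- SANDWICH: the density is known, up to a factor 2, from one block. -/
def SandwichStatement : Prop :=
  ∀ A : ℕ, ∃ C u₀ : ℝ, 0 < C ∧ ∀ (d : Bool) (B : Set ℕ) (lo : ℕ) (D u : ℝ), InvA d B lo →
    Filter.Tendsto (Gd B) Filter.atTop (nhds D) → u₀ ≤ u → (lo : ℝ) ≤ 83 / 100 * u →
    D / 2 - C / u ^ A ≤ Gd B u ∧ Gd B u ≤ 2 * D + C / u ^ A

/-- ZEROZ: invariant sets of density zero on the integers. -/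
def ZeroZStatement : Prop :=
  ∀ A : ℕ, ∃ C : ℝ, 0 < C ∧ ∀ (d : Bool) (y : ℝ) (S : Set ℤ) (D : ℝ), 1 ≤ y →
    (∀ x : ℤ, y ≤ |(x : ℝ)| → (x ∈ S ↔ TZ x ∈ S)) → HasDens d S D →
    ∀ X : ℝ, 2 ≤ X → cnt d S X ≤ 4 * D * X + C * (X / Real.log X ^ A + y ^ 2)

end Pool.Agent.Lib.MP_edb5be_nt.ND
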