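import Pool.Agent.Lib.MP_edb5be_nt.ND.Iface

/-! Project ND, module SMOOTH (helper25). -/

set_option autoImplicit false

namespace Pool.Agent.Lib.MP_edb5be_nt.ND

open Finset Pool.Agent.Lib.MP_0a5adf_nt.TP

namespace Smooth

/-- The trapezoid. -/
noncomputable def chi (ε x : ℝ) : ℝ := max 0 (min 1 (min (x / ε) ((1 - x) / ε)))

/-- The bump. -/
noncomputable def gg (ε x : ℝ) : ℝ := (2 : ℝ) ^ x * chi ε x

lemma chi_nonneg (ε x : ℝ) : 0 ≤ chi ε x := le_max_left _ _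

lemma chi_le_one (ε x : ℝ) : chi ε x ≤ 1 := by
  unfold chi
  exact max_le zero_le_one (min_le_left _ _)

lemma chi_eq_zero {ε x : ℝ} (hε : 0 < ε) (hx : ¬ (0 < x ∧ x < 1)) : chi ε x = 0 := by
  unfold chi
  apply max_eq_left
  by_cases h : x ≤ 0
  · have : x / ε ≤ 0 := div_nonpos_of_nonpos_of_nonneg h hε.le
    exact (min_le_right _ _).trans ((min_le_left _ _).trans this)
  · have h1 : 1 ≤ x := by
      by_contra hc
      exact hx ⟨lt_of_not_ge h, lt_of_not_ge hc⟩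
    have : (1 - x) / ε ≤ 0 := div_nonpos_of_nonpos_of_nonneg (by linarith) hε.le
    exact (min_le_right _ _).trans ((min_le_right _ _).trans this)

lemma chi_eq_one {ε x : ℝ} (hε : 0 < ε) (h1 : ε ≤ x) (h2 : x ≤ 1 - ε) : chi ε x = 1 := by
  unfold chi
  have a : 1 ≤ x / ε := by rw [le_div_iff₀ hε]; linarith
  have b : 1 ≤ (1 - x) / ε := by rw [le_div_iff₀ hε]; linarith
  rw [min_eq_left (le_min a b)]
  exact max_eq_right zero_le_one

lemma chi_lip {ε : ℝ} (hε : 0 < ε) (x y : ℝ) : |chi ε x - chi ε y| ≤ |x - y| / ε := by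
  unfold chi
  have h0 : 0 ≤ |x - y| / ε := div_nonneg (abs_nonneg _) hε.le
  have h1 : |x / ε - y / ε| ≤ |x - y| / ε := by
    rw [← sub_div, abs_div, abs_of_pos hε]
  have h2 : |(1 - x) / ε - (1 - y) / ε| ≤ |x - y| / ε := by
    rw [← sub_div, abs_div, abs_of_pos hε]
    have : |1 - x - (1 - y)| = |x - y| := by
      rw [show (1 - x - (1 - y)) = -(x - y) by ring, abs_neg]
    rw [this]
  have h3 := abs_min_sub_min_le_max (x / ε) ((1 - x) / ε) (y / ε) ((1 - y) / ε)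
  have h4 := abs_min_sub_min_le_max (1 : ℝ) (min (x / ε) ((1 - x) / ε)) 1
    (min (y / ε) ((1 - y) / ε))
  have h5 := abs_max_sub_max_le_max (0 : ℝ) (min 1 (min (x / ε) ((1 - x) / ε))) 0
    (min 1 (min (y / ε) ((1 - y) / ε)))
  refine h5.trans ?_
  rw [sub_self, abs_zero]
  refine max_le h0 (h4.trans ?_)
  rw [sub_self, abs_zero]
  exact max_le h0 (h3.trans (max_le h1 h2))

lemma pow_bd {x : ℝ} (h1 : x ≤ 1) : (2 : ℝ) ^ x ≤ 2 := by
  calc (2 : ℝ) ^ x ≤ (2 : ℝ) ^ (1 : ℝ) := Real.rpow_le_rpow_of_exponent_le (by norm_num) h1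
    _ = 2 := Real.rpow_one 2

lemma pow_lip_aux {x y : ℝ} (hxy : x ≤ y) (hy : y ≤ 1) : (2 : ℝ) ^ y - 2 ^ x ≤ 2 * (y - x) := by
  have h1 : (2 : ℝ) ^ x = 2 ^ y * 2 ^ (x - y) := by
    rw [← Real.rpow_add (by norm_num)]; ring_nf
  have h2 : 1 - (y - x) ≤ (2 : ℝ) ^ (x - y) := by
    rw [Real.rpow_def_of_pos (by norm_num)]
    have := Real.add_one_le_exp (Real.log 2 * (x - y))
    have l1 : Real.log 2 ≤ 1 := by
      have := Real.log_two_lt_d9; linarith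
    have l0 : 0 ≤ Real.log 2 := Real.log_nonneg (by norm_num)
    nlinarith
  have h3 := pow_bd hy
  have h4 : (0 : ℝ) < 2 ^ y := Real.rpow_pos_of_pos (by norm_num) _
  rw [h1]
  nlinarith

lemma pow_lip {x y : ℝ} (hx : x ≤ 1) (hy : y ≤ 1) : |(2 : ℝ) ^ x - 2 ^ y| ≤ 2 * |x - y| := by
  rcases le_total x y with h | h
  · have := pow_lip_aux h hy
    have m : (2 : ℝ) ^ x ≤ 2 ^ y := Real.rpow_le_rpow_of_exponent_le (by norm_num) h
    rw [abs_sub_comm, abs_of_nonneg (by linarith), abs_sub_comm, abs_of_nonneg (by linarith)]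
    exact this
  · have := pow_lip_aux h hx
    have m : (2 : ℝ) ^ y ≤ 2 ^ x := Real.rpow_le_rpow_of_exponent_le (by norm_num) h
    rw [abs_of_nonneg (by linarith), abs_of_nonneg (by linarith)]
    exact this

lemma gg_zero {ε x : ℝ} (hε : 0 < ε) (hx : ¬ (0 < x ∧ x < 1)) : gg ε x = 0 := by
  rw [gg, chi_eq_zero hε hx, mul_zero]

lemma gg_clamp {ε : ℝ} (hε : 0 < ε) (x : ℝ) : gg ε x = gg ε (max 0 (min 1 x)) := by
  by_cases hx : 0 < x ∧ x < 1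
  · rw [min_eq_right hx.2.le, max_eq_right hx.1.le]
  · rw [gg_zero hε hx, gg_zero hε]
    rintro ⟨h1, h2⟩
    apply hx
    have h3 : 0 < min 1 x := by
      rcases lt_max_iff.mp h1 with h | h
      · exact absurd h (lt_irrefl _)
      · exact h
    refine ⟨(lt_min_iff.mp h3).2, ?_⟩
    have h4 : min 1 x < 1 := (max_lt_iff.mp h2).2
    rcases min_lt_iff.mp h4 with h | h
    · exact absurd h (lt_irrefl _)
    · exact h

lemma gg_lip_aux {ε : ℝ} (hε : 0 < ε) (hε2 : ε ≤ 1 / 2) {x y : ℝ} (hx1 : x ≤ 1)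
    (hy1 : y ≤ 1) : |gg ε x - gg ε y| ≤ 3 / ε * |x - y| := by
  have e : gg ε x - gg ε y = (2 : ℝ) ^ x * (chi ε x - chi ε y) + ((2 : ℝ) ^ x - 2 ^ y) * chi ε y := by
    unfold gg; ring
  -- sharper Lipschitz constant for the exponential is not needed: use `|χ'| ≤ 1/ε`
  have a : |(2 : ℝ) ^ x * (chi ε x - chi ε y)| ≤ 2 * (|x - y| / ε) := by
    rw [abs_mul, abs_of_pos (Real.rpow_pos_of_pos (by norm_num) _)]
    exact mul_le_mul (pow_bd hx1) (chi_lip hε x y) (abs_nonneg _) (by norm_num)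
  have b : |((2 : ℝ) ^ x - 2 ^ y) * chi ε y| ≤ 2 * |x - y| := by
    rw [abs_mul, abs_of_nonneg (chi_nonneg ε y)]
    calc |(2 : ℝ) ^ x - 2 ^ y| * chi ε y ≤ |(2 : ℝ) ^ x - 2 ^ y| * 1 :=
          mul_le_mul_of_nonneg_left (chi_le_one ε y) (abs_nonneg _)
      _ ≤ 2 * |x - y| := by rw [mul_one]; exact pow_lip hx1 hy1
  have c : 2 * |x - y| ≤ |x - y| / ε := by
    rw [le_div_iff₀ hε]
    nlinarith [abs_nonneg (x - y)]
  rw [e]
  calc |(2 : ℝ) ^ x * (chi ε x - chi ε y) + ((2 : ℝ) ^ x - 2 ^ y) * chi ε y|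
      ≤ 2 * (|x - y| / ε) + 2 * |x - y| := (abs_add_le _ _).trans (add_le_add a b)
    _ ≤ 2 * (|x - y| / ε) + |x - y| / ε := by linarith
    _ = 3 / ε * |x - y| := by ring

lemma clamp_lip (x y : ℝ) : |max 0 (min 1 x) - max 0 (min 1 y)| ≤ |x - y| := by
  have h4 := abs_min_sub_min_le_max (1 : ℝ) x 1 y
  have h5 := abs_max_sub_max_le_max (0 : ℝ) (min 1 x) 0 (min 1 y)
  rw [sub_self, abs_zero, max_eq_right (abs_nonneg (x - y))] at h4
  rw [sub_self, abs_zero, max_eq_right (abs_nonneg (min 1 x - min 1 y))] at h5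
  exact h5.trans h4

lemma bump {ε : ℝ} (hε : 0 < ε) (hε2 : ε ≤ 1 / 2) : Bump (3 / ε) (gg ε) where
  bd := by
    intro x
    by_cases hx : 0 < x ∧ x < 1
    · rw [gg, abs_mul, abs_of_pos (Real.rpow_pos_of_pos (by norm_num) _),
        abs_of_nonneg (chi_nonneg ε x)]
      calc (2 : ℝ) ^ x * chi ε x ≤ 2 * 1 :=
            mul_le_mul (pow_bd hx.2.le) (chi_le_one ε x) (chi_nonneg ε x) (by norm_num)
        _ = 2 := by norm_num
    · rw [gg_zero hε hx, abs_zero]; norm_num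
  lip := by
    intro x y
    rw [gg_clamp hε x, gg_clamp hε y]
    refine (gg_lip_aux hε hε2 (max_le zero_le_one (min_le_left _ _))
      (max_le zero_le_one (min_le_left _ _))).trans ?_
    exact mul_le_mul_of_nonneg_left (clamp_lip x y) (by positivity)
  supp := by
    intro x hx
    exact gg_zero hε (fun h => hx ⟨h.1.le, h.2.le⟩)

/-- The number of naturals in `[a, b)`. -/
lemma card_bd (F : Finset ℕ) {a b : ℝ} (hab : a ≤ b) (ha : 0 ≤ a)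
    (h : ∀ n ∈ F, a ≤ (n : ℝ) ∧ (n : ℝ) < b) : (F.card : ℝ) ≤ b - a + 1 := by
  have h1 : F ⊆ Ico ⌈a⌉₊ ⌈b⌉₊ := by
    intro n hn
    rw [mem_Ico]
    exact ⟨Nat.ceil_le.mpr (h n hn).1, Nat.lt_ceil.mpr (h n hn).2⟩
  have h2 : F.card ≤ ⌈b⌉₊ - ⌈a⌉₊ := by
    have := card_le_card h1
    rwa [Nat.card_Ico] at this
  have h3 : ⌈a⌉₊ ≤ ⌈b⌉₊ := Nat.ceil_mono hab
  have h4 : (F.card : ℝ) ≤ (⌈b⌉₊ : ℝ) - ⌈a⌉₊ := by
    rw [← Nat.cast_sub h3]
    exact_mod_cast h2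
  have h5 := Nat.ceil_lt_add_one (ha.trans hab)
  have h6 := Nat.le_ceil a
  linarith

lemma card_bd' (F : Finset ℕ) {a b : ℝ} (hab : a ≤ b) (ha : 0 ≤ a)
    (h : ∀ n ∈ F, a < (n : ℝ) ∧ (n : ℝ) ≤ b) : (F.card : ℝ) ≤ b - a + 1 := by
  have h1 : F ⊆ Ioc ⌊a⌋₊ ⌊b⌋₊ := by
    intro n hn
    rw [mem_Ioc]
    exact ⟨(Nat.floor_lt ha).mpr (h n hn).1, Nat.le_floor (h n hn).2⟩
  have h2 : F.card ≤ ⌊b⌋₊ - ⌊a⌋₊ := by
    have := card_le_card h1
    rwa [Nat.card_Ioc] at this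
  have h3 : ⌊a⌋₊ ≤ ⌊b⌋₊ := Nat.floor_mono hab
  have h4 : (F.card : ℝ) ≤ (⌊b⌋₊ : ℝ) - ⌊a⌋₊ := by
    rw [← Nat.cast_sub h3]
    exact_mod_cast h2
  have h5 := Nat.lt_floor_add_one a
  have h6 := Nat.floor_le (ha.trans hab)
  linarith

lemma pow_logb {N : ℕ} (hN : 1 ≤ N) (z : ℝ) :
    (2 : ℝ) ^ (Real.logb 2 N - z) = N / 2 ^ z := by
  rw [Real.rpow_sub (by norm_num), Real.rpow_logb (by norm_num) (by norm_num)
    (by exact_mod_cast hN)]

open Classical in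
theorem main {ε : ℝ} (hε : 0 < ε) (hε2 : ε ≤ 1 / 2) (B : Set ℕ) {z : ℝ} (hz : 0 ≤ z) :
    |Gd B z - Fm B (gg ε) z| ≤ 3 * ε + 2 / 2 ^ z := by
  have hp : (0 : ℝ) < 2 ^ z := Real.rpow_pos_of_pos (by norm_num) _
  have hp1 : (1 : ℝ) ≤ 2 ^ z := Real.one_le_rpow (by norm_num) hz
  set F : Finset ℕ := (upto z).filter (fun N => N ∈ B) with hF
  have hFm : ∀ N ∈ F, 1 ≤ N ∧ (N : ℝ) ≤ 2 ^ (z + 1) ∧ N ∈ B := by
    intro N hN
    rw [hF, mem_filter, upto, mem_Icc] at hN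
    exact ⟨hN.1.1, (Nat.le_floor_iff (by positivity)).mp hN.1.2, hN.2⟩
  have hG : Gd B z = (∑ N ∈ F, if ((2 : ℝ) ^ z ≤ N ∧ (N : ℝ) < 2 ^ (z + 1)) then (1 : ℝ) else 0)
      / 2 ^ z := by
    rw [Gd]
    congr 1
    rw [← sum_filter, sum_const, nsmul_eq_mul, mul_one]
    norm_cast
    rw [← Set.ncard_coe_finset]
    congr 1
    ext N
    simp only [Set.mem_ofPred_eq, coe_filter]
    constructor
    · rintro ⟨h1, h2, h3⟩
      refine ⟨?_, h2, h3⟩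
      rw [hF, mem_filter, upto, mem_Icc]
      refine ⟨⟨?_, ?_⟩, h1⟩
      · have : (1 : ℝ) ≤ N := hp1.trans h2
        exact_mod_cast this
      · exact Nat.le_floor h3.le
    · rintro ⟨h1, h2, h3⟩
      exact ⟨(hFm N h1).2.2, h2, h3⟩
  have hFF : Fm B (gg ε) z = (∑ N ∈ F, chi ε (Real.logb 2 N - z)) / 2 ^ z := by
    rw [Fm, sum_div]
    apply sum_congr rfl
    intro N hN
    have h1 := (hFm N hN).1
    have h2 : (0 : ℝ) < N := by exact_mod_cast h1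
    rw [gg, pow_logb h1]
    field_simp
  rw [hG, hFF, ← sub_div, ← sum_sub_distrib, abs_div, abs_of_pos hp, div_le_iff₀ hp]
  -- the bad integers
  set A1 : Finset ℕ := F.filter (fun N : ℕ => (2 : ℝ) ^ z ≤ (N : ℝ) ∧ (N : ℝ) < 2 ^ (z + ε))
    with hA1
  set A2 : Finset ℕ := F.filter (fun N : ℕ => (2 : ℝ) ^ (z + 1 - ε) < (N : ℝ) ∧
    (N : ℝ) ≤ 2 ^ (z + 1)) with hA2
  have key : ∀ N ∈ F, |(if ((2 : ℝ) ^ z ≤ N ∧ (N : ℝ) < 2 ^ (z + 1)) then (1 : ℝ) else 0) -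
      chi ε (Real.logb 2 N - z)| ≤
      (if ((2 : ℝ) ^ z ≤ N ∧ (N : ℝ) < 2 ^ (z + ε)) then (1 : ℝ) else 0) +
      (if ((2 : ℝ) ^ (z + 1 - ε) < N ∧ (N : ℝ) ≤ 2 ^ (z + 1)) then (1 : ℝ) else 0) := by
    intro N hN
    have h1 := (hFm N hN).1
    have h2 : (0 : ℝ) < N := by exact_mod_cast h1
    have lg : ∀ t : ℝ, (t ≤ Real.logb 2 N ↔ (2 : ℝ) ^ t ≤ N) := fun t =>
      Real.le_logb_iff_rpow_le (by norm_num) h2
    have lg' : ∀ t : ℝ, (Real.logb 2 N < t ↔ (N : ℝ) < 2 ^ t) := fun t =>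
      Real.logb_lt_iff_lt_rpow (by norm_num) h2
    have c0 := chi_nonneg ε (Real.logb 2 N - z)
    have c1 := chi_le_one ε (Real.logb 2 N - z)
    have p1 : (0 : ℝ) ≤ (if ((2 : ℝ) ^ z ≤ N ∧ (N : ℝ) < 2 ^ (z + ε)) then (1 : ℝ) else 0) := by
      split_ifs <;> norm_num
    have p2 : (0 : ℝ) ≤ (if ((2 : ℝ) ^ (z + 1 - ε) < N ∧ (N : ℝ) ≤ 2 ^ (z + 1))
        then (1 : ℝ) else 0) := by
      split_ifs <;> norm_num
    by_cases hi : (2 : ℝ) ^ z ≤ N ∧ (N : ℝ) < 2 ^ (z + 1)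
    · rw [if_pos hi]
      by_cases hb : (2 : ℝ) ^ z ≤ N ∧ (N : ℝ) < 2 ^ (z + ε)
      · rw [if_pos hb, abs_of_nonneg (by linarith)]
        linarith
      · by_cases hb2 : (2 : ℝ) ^ (z + 1 - ε) < N ∧ (N : ℝ) ≤ 2 ^ (z + 1)
        · rw [if_pos hb2, abs_of_nonneg (by linarith)]
          linarith
        · have e1 : (2 : ℝ) ^ (z + ε) ≤ N := by
            by_contra hc
            exact hb ⟨hi.1, lt_of_not_ge hc⟩
          have e2 : (N : ℝ) ≤ 2 ^ (z + 1 - ε) := by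
            by_contra hc
            exact hb2 ⟨lt_of_not_ge hc, hi.2.le⟩
          have e3 : z + ε ≤ Real.logb 2 N := (lg _).mpr e1
          have e4 : Real.logb 2 N ≤ z + 1 - ε :=
            (Real.logb_le_iff_le_rpow (by norm_num) h2).mpr e2
          rw [chi_eq_one hε (by linarith) (by linarith), sub_self, abs_zero]
          linarith
    · rw [if_neg hi, chi_eq_zero hε, sub_zero, abs_zero]
      · linarith
      · rintro ⟨h3, h4⟩
        apply hi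
        exact ⟨(lg _).mp (by linarith), (lg' _).mp (by linarith)⟩
  have hs : |∑ N ∈ F, ((if ((2 : ℝ) ^ z ≤ N ∧ (N : ℝ) < 2 ^ (z + 1)) then (1 : ℝ) else 0) -
      chi ε (Real.logb 2 N - z))| ≤ (A1.card : ℝ) + A2.card := by
    refine (abs_sum_le_sum_abs _ _).trans ((sum_le_sum key).trans ?_)
    rw [sum_add_distrib, ← sum_filter, ← sum_filter, sum_const, sum_const, nsmul_eq_mul,
      nsmul_eq_mul, mul_one, mul_one]
  have q1 : (2 : ℝ) ^ (z + ε) = 2 ^ z * 2 ^ ε := Real.rpow_add (by norm_num) _ _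
  have q2 : (2 : ℝ) ^ (z + 1) = 2 ^ z * 2 := by
    rw [Real.rpow_add (by norm_num), Real.rpow_one]
  have q3 : (2 : ℝ) ^ (z + 1 - ε) = 2 ^ z * (2 * 2 ^ (-ε)) := by
    rw [show z + 1 - ε = z + (1 + -ε) by ring, Real.rpow_add (by norm_num),
      Real.rpow_add (by norm_num), Real.rpow_one]
  have r1 : (2 : ℝ) ^ ε ≤ 1 + ε := by
    have hb := rpow_one_add_le_one_add_mul_self (s := 1) (by norm_num) hε.le
      (by linarith : ε ≤ 1)
    norm_num at hb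
    exact hb
  have r2 : 1 - ε ≤ (2 : ℝ) ^ (-ε) := by
    rw [Real.rpow_def_of_pos (by norm_num)]
    have := Real.add_one_le_exp (Real.log 2 * (-ε))
    have l1 : Real.log 2 ≤ 1 := by
      have := Real.log_two_lt_d9; linarith
    have l0 : 0 ≤ Real.log 2 := Real.log_nonneg (by norm_num)
    nlinarith
  have r3 : (1 : ℝ) ≤ 2 ^ ε := Real.one_le_rpow (by norm_num) hε.le
  have r4 : (2 : ℝ) ^ (-ε) ≤ 1 := by
    calc (2 : ℝ) ^ (-ε) ≤ 2 ^ (0 : ℝ) := Real.rpow_le_rpow_of_exponent_le (by norm_num) (by linarith)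
      _ = 1 := Real.rpow_zero 2
  have hc1 : (A1.card : ℝ) ≤ 2 ^ (z + ε) - 2 ^ z + 1 := by
    apply card_bd A1 _ hp.le
    · intro n hn
      exact (mem_filter.mp hn).2
    · rw [q1]; nlinarith
  have hc2 : (A2.card : ℝ) ≤ 2 ^ (z + 1) - 2 ^ (z + 1 - ε) + 1 := by
    apply card_bd' A2 _ (by positivity)
    · intro n hn
      exact (mem_filter.mp hn).2
    · rw [q2, q3]; nlinarith
  have fin : (A1.card : ℝ) + A2.card ≤ 3 * ε * 2 ^ z + 2 := by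
    rw [q1] at hc1
    rw [q2, q3] at hc2
    nlinarith
  calc |∑ N ∈ F, ((if ((2 : ℝ) ^ z ≤ N ∧ (N : ℝ) < 2 ^ (z + 1)) then (1 : ℝ) else 0) -
      chi ε (Real.logb 2 N - z))| ≤ (A1.card : ℝ) + A2.card := hs
    _ ≤ 3 * ε * 2 ^ z + 2 := fin
    _ = (3 * ε + 2 / 2 ^ z) * 2 ^ z := by field_simp

end Smooth

/-- Module SMOOTH. -/
theorem smooth : SmoothStatement := by
  intro ε hε hε2
  exact ⟨Smooth.gg ε, Smooth.bump hε hε2, fun B z hz => Smooth.main hε hε2 B hz⟩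

end Pool.Agent.Lib.MP_edb5be_nt.ND
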