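import Pool.Agent.Lib.MP_edb5be_nt.ND.Iface

/-!
Project ND, second part: almost every integer prime to 3 is reached by a positive proportion of all
integers. Statements of the modules.
-/

set_option autoImplicit false

namespace Pool.Agent.Lib.MP_edb5be_nt.ND

open Finset Pool.Agent.Lib.MP_0a5adf_nt.TP

/-! ### The densities `FF m` -/

/-- `3 ^ m` times the probability that the residue modulo `3 ^ m` of a random word with `m` odd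
steps is `x`. -/
noncomputable def FF (m : ℕ) (x : ℤ) : ℝ := 3 ^ m * ∑' c : ℕ, f m c (x : ZMod (3 ^ m))

/-- FFA: basic facts. -/
def FFAStatement : Prop :=
  (∀ (m : ℕ) (x : ℤ), 0 ≤ FF m x ∧ FF m (x + 3 ^ m) = FF m x ∧ Phi m x ≤ FF m x) ∧
  (∀ m : ℕ, ∑ x ∈ range (3 ^ m), FF m x = 3 ^ m) ∧
  (∀ m : ℕ, ∑ x ∈ range (3 ^ m), (FF m x - Phi m x) ≤ 3 ^ m * (3 / 5 : ℝ) ^ m) ∧
  (∃ C : ℝ, 0 < C ∧ ∀ n m : ℕ, 1 ≤ n → n ≤ m →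
    ∑ x ∈ range (3 ^ m), |FF m x - FF n x| ≤ C / n * 3 ^ m)

/-- SELF: self-similarity. -/
def SelfStatement : Prop :=
  ∀ n : ℕ, ∃ K : ℕ, ∀ x : ℤ, ¬ (3 : ℤ) ∣ x → ∃ c : ℕ, c ≤ K ∧ ∃ r : ℤ,
    (3 : ℤ) ^ n ∣ 2 ^ c * x - r ∧ ∀ (m : ℕ) (y : ℤ), (3 : ℤ) ^ n ∣ y - x →
      3 ^ n / 2 ^ c * FF m ((2 ^ c * y - r) / 3 ^ n) ≤ FF (m + n) y

open Classical in
/-- TAILP: the lower tail of the density. -/
def TailPStatement : Prop :=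
  ∀ ε : ℝ, 0 < ε → ∃ δ : ℝ, 0 < δ ∧ ∃ m₀ : ℕ, ∀ (d : Bool) (m : ℕ), m₀ ≤ m →
    (((range (3 ^ m)).filter fun x => ¬ 3 ∣ x ∧ Phi m (sg d * x) < δ).card : ℝ) ≤ ε * 3 ^ m

/-! ### Visits -/

/-- BINLOC: local lower bound for the binomial weights. -/
def BinLocStatement : Prop :=
  ∃ c : ℝ, 0 < c ∧ ∀ n v : ℕ, 1 ≤ n → v ≤ n → |2 * (v : ℝ) - n| ≤ 3 * √n → c / √n ≤ bw n v

open Classical in
/-- RENEW: the walk visits every interval of length `4 / 5` with positive probability. -/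
def RenewStatement : Prop :=
  ∃ c τ₀ : ℝ, 0 < c ∧ ∀ τ η : ℝ, τ₀ ≤ τ → 0 ≤ η → η ≤ 1 / 10 →
    c ≤ ∑ j ∈ (range (6 * ⌈τ⌉₊)).filter (fun j : ℕ => |(j : ℝ) - τ / mu| ≤ τ / 50),
      ∑ v ∈ range (j + 1),
        if τ + η ≤ j - th * v ∧ j - th * v ≤ τ + 1 - η then bw j v else 0

open Classical in
/-- PV1A: lower bound for the number of visits at time `i`. -/
def PV1AStatement : Prop :=
  ∀ (d : Bool) (k z i D : ℕ) (E : Finset ℕ) (x : ℝ), E ⊆ blk k 1 → 0 < x → x ≤ 1 / 2 →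
    (∀ s ∈ typ i D, (3 : ℝ) ^ s ≤ x * 2 ^ k) →
    2 ^ z * ∑ M ∈ E, 1 / (M : ℝ) * ∑ s ∈ typ i D,
        (if z + 2 * x ≤ Real.logb 2 M + i - th * s ∧ Real.logb 2 M + i - th * s ≤ z + 1 - 2 * x
          then 3 ^ s * Pc s i s (sg d * M) else 0) ≤
      (((Ico (2 ^ z) (2 ^ (z + 1))).filter fun N => (T d)^[i] N ∈ E).card : ℝ)

open Classical in
/-- PV1: lower bound for the total number of visits. -/
def PV1Statement : Prop :=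
  ∃ (c C : ℝ) (k₀ : ℕ), 0 < c ∧ 0 < C ∧ ∀ (d : Bool) (k z m : ℕ) (E : Finset ℕ), k₀ ≤ k →
    E ⊆ blk k 1 → z = 121 * k / 100 + 1 → m = k / 100 →
    2 ^ z * (c * ((∑ M ∈ E, Phi m (sg d * M)) / 2 ^ k) - C / k) ≤
      ∑ N ∈ Ico (2 ^ z) (2 ^ (z + 1)),
        (((range (19 * z / 20)).filter fun i => (T d)^[i] N ∈ E).card : ℝ)

open Classical in
/-- PV2: the number of visits to a dyadic block is bounded in mean square. -/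
def PV2Statement : Prop :=
  ∃ (C : ℝ) (z₀ : ℕ), 0 < C ∧ ∀ (d : Bool) (k z : ℕ), z₀ ≤ z →
    ∑ N ∈ Ico (2 ^ z) (2 ^ (z + 1)),
      (((range (19 * z / 20)).filter fun i => (T d)^[i] N ∈ blk k 1).card : ℝ) ^ 2 ≤ C * 2 ^ z

/-- The numbers whose trajectory meets `E`. -/
def Hit (d : Bool) (E : Set ℕ) : Set ℕ := {N : ℕ | ∃ i : ℕ, (T d)^[i] N ∈ E}

/-- HIT: lower bound for the block density of `Hit d E`. -/
def HitStatement : Prop :=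
  ∃ (c C : ℝ) (k₀ : ℕ), 0 < c ∧ 0 < C ∧ ∀ (d : Bool) (k z m : ℕ) (E : Finset ℕ), k₀ ≤ k →
    E ⊆ blk k 1 → z = 121 * k / 100 + 1 → m = k / 100 →
    c * max 0 ((∑ M ∈ E, Phi m (sg d * M)) / 2 ^ k - C / k) ^ 2 ≤ Gd (Hit d E) z

/-- `B` has natural density `D` in the positive integers. -/
def HasDensN (B : Set ℕ) (D : ℝ) : Prop :=
  Filter.Tendsto (fun X : ℝ => ({N : ℕ | N ∈ B ∧ 1 ≤ N ∧ (N : ℝ) ≤ X}.ncard : ℝ) / X)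
    Filter.atTop (nhds D)

/-- POP: almost every `M` prime to `3` is reached by a positive proportion of all integers. -/
def PopStatement : Prop :=
  ∀ ε : ℝ, 0 < ε → ∃ δ : ℝ, 0 < δ ∧ ∃ k₀ : ℕ, ∀ (d : Bool) (k : ℕ), k₀ ≤ k →
    ({M : ℕ | 2 ^ k ≤ M ∧ M < 2 ^ (k + 1) ∧ ¬ 3 ∣ M ∧
      ∃ D : ℝ, HasDensN (Hit d {M}) D ∧ D < δ / 2 ^ k}.ncard : ℝ) ≤ ε * 2 ^ k

/-- ZPOP: the same on the integers. -/
def ZPopStatement : Prop :=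
  ∀ ε : ℝ, 0 < ε → ∃ δ : ℝ, 0 < δ ∧ ∃ X₀ : ℝ, ∀ (d : Bool) (X : ℝ), X₀ ≤ X →
    ({x : ℤ | 0 < sg d * x ∧ ((sg d * x : ℤ) : ℝ) ≤ X ∧ ¬ (3 : ℤ) ∣ x ∧
      ∃ D : ℝ, HasDens d {n : ℤ | ∃ i : ℕ, TZ^[i] n = x} D ∧ D < δ / |(x : ℝ)|}.ncard : ℝ) ≤
        ε * X

end Pool.Agent.Lib.MP_edb5be_nt.ND
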