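import Pool.Agent.Lib.MP_edb5be_nt.ND.Defs

/-!
Project ND: statements of the modules.
-/

set_option autoImplicit false

namespace Pool.Agent.Lib.MP_edb5be_nt.ND

open Finset Pool.Agent.Lib.MP_0a5adf_nt.TP

open Classical in
/-- S1A: `i` steps of the trajectory. -/
def S1AStatement : Prop :=
  ∃ C z₀ : ℝ, 0 < C ∧ ∀ (d : Bool) (B : Set ℕ) (lo : ℕ) (g : ℝ → ℝ) (L z : ℝ) (i D k : ℕ),
    z₀ ≤ z → (lo : ℝ) ≤ 97 / 100 * z → InvA d B lo → 0 ≤ L → L ≤ z ^ 3 → Bump L g →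
    z / 75 ≤ i → (i : ℝ) ≤ z / 10 → D = dev ⌊z⌋₊ → k = ⌊z - mu * i⌋₊ →
    |Fm B g z - ∑ M ∈ (blk (k - 2 * D) (4 * D + 4)).filter (fun M => M ∈ B), 1 / (M : ℝ) *
        ∑ s ∈ typ i D, 3 ^ s * Pc s i s (sg d * M) * g (Real.logb 2 M + i - th * s - z)| ≤ C / z

open Classical in
/-- S1B: from the residues modulo `3 ^ s` to the residues modulo `3 ^ m`. -/
def S1BStatement : Prop :=
  ∃ C z₀ : ℝ, 0 < C ∧ ∀ (d : Bool) (B : Set ℕ) (g : ℝ → ℝ) (L z : ℝ) (i m D k : ℕ),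
    z₀ ≤ z → Bump L g → (i : ℝ) ≤ z / 10 → 4 * m ≤ i → z ≤ 300 * m →
    D = dev ⌊z⌋₊ → k = ⌊z - mu * i⌋₊ →
    |∑ M ∈ (blk (k - 2 * D) (4 * D + 4)).filter (fun M => M ∈ B), 1 / (M : ℝ) *
        ∑ s ∈ typ i D, 3 ^ s * Pc s i s (sg d * M) * g (Real.logb 2 M + i - th * s - z) -
      ∑ c ∈ range (i + 1), PJ (i - c) (Rm d B g m c) (z - c + th * m)| ≤ C / z

/-- S1: the main formula for `i` steps. -/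
def S1Statement : Prop :=
  ∃ C z₀ : ℝ, 0 < C ∧ ∀ (d : Bool) (B : Set ℕ) (lo : ℕ) (g : ℝ → ℝ) (L z : ℝ) (i m : ℕ),
    z₀ ≤ z → (lo : ℝ) ≤ 97 / 100 * z → InvA d B lo → 0 ≤ L → L ≤ z ^ 3 → Bump L g →
    (i : ℝ) ≤ z / 10 → 4 * m ≤ i → z ≤ 300 * m →
    |Fm B g z - ∑ c ∈ range (i + 1), PJ (i - c) (Rm d B g m c) (z - c + th * m)| ≤ C / z

/-- SEMI: semigroup property (Vandermonde). -/
def SemiStatement : Prop :=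
  ∀ (j j' : ℕ) (F : ℝ → ℝ) (z : ℝ), PJ j (PJ j' F) z = PJ (j + j') F z

/-- RBOUND. -/
def RBoundStatement : Prop :=
  (∀ (d : Bool) (B : Set ℕ) (g : ℝ → ℝ) (L : ℝ) (m c : ℕ) (t : ℝ), Bump L g →
    3 ^ m ≤ 2 ^ ⌊t⌋₊ → |Rm d B g m c t| ≤ 6 * (((Fam m c).card : ℝ) / 2 ^ c)) ∧
  (∀ m i : ℕ, ∑ c ∈ Ioc (4 * m) i, ((Fam m c).card : ℝ) / 2 ^ c ≤ (3 / 5 : ℝ) ^ m)

/-- TF: approximate harmonicity of the smoothed masses. -/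
def TFStatement : Prop :=
  ∃ C u₀ : ℝ, 0 < C ∧ ∀ (d : Bool) (B : Set ℕ) (lo : ℕ) (g : ℝ → ℝ) (L u : ℝ) (J : ℕ),
    u₀ ≤ u → (lo : ℝ) ≤ 9 / 10 * u → InvA d B lo → 0 ≤ L → L ≤ u ^ 2 → Bump L g →
    (J : ℝ) ≤ u / 20 → |Fm B g u - PJ J (Fm B g) u| ≤ C / u

/-- SMOOTH: blocks and bumps. -/
def SmoothStatement : Prop :=
  ∀ ε : ℝ, 0 < ε → ε ≤ 1 / 2 → ∃ g : ℝ → ℝ, Bump (3 / ε) g ∧
    ∀ (B : Set ℕ) (z : ℝ), 0 ≤ z → |Gd B z - Fm B g z| ≤ 3 * ε + 2 / 2 ^ z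

/-- TG: approximate harmonicity of the block densities. -/
def TGStatement : Prop :=
  ∃ C u₀ : ℝ, 0 < C ∧ ∀ (d : Bool) (B : Set ℕ) (lo : ℕ) (u : ℝ) (J : ℕ),
    u₀ ≤ u → (lo : ℝ) ≤ 9 / 10 * u → InvA d B lo → (J : ℝ) ≤ u / 20 →
    |Gd B u - PJ J (Gd B) u| ≤ C / u

/-- BIN: estimates for the binomial weights. -/
def BinStatement : Prop :=
  ∀ J : ℕ, (∑ v ∈ range (J + 1), bw J v = 1) ∧
    (∑ v ∈ range (J + 2), |bw (J + 1) v - bw J v| ≤ 1 / √(J + 1)) ∧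
    (bw (J + 2) 0 + bw (J + 2) (J + 2) +
      ∑ v ∈ range (J + 1), |bw (J + 2) (v + 1) - bw J v| ≤ 2 / (J + 1)) ∧
    (∑ v ∈ range (J + 1), bw J v * |(v : ℝ) - J / 2| ≤ √J / 2)

/-- LIP: the block densities are bounded and Lipschitz. -/
def LipStatement : Prop :=
  ∀ (B : Set ℕ) (u h : ℝ), 0 ≤ u → 0 ≤ h → h ≤ 1 →
    0 ≤ Gd B u ∧ Gd B u ≤ 1 + 1 / 2 ^ u ∧ |Gd B (u + h) - Gd B u| ≤ 10 * (h + 1 / 2 ^ u)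

/-- SLOW: shifts by `2 - log_2 3` and by `1`. -/
def SlowStatement : Prop :=
  ∃ C u₀ : ℝ, 0 < C ∧ ∀ (d : Bool) (B : Set ℕ) (lo : ℕ) (u : ℝ),
    u₀ ≤ u → (lo : ℝ) ≤ 89 / 100 * u → InvA d B lo →
    |Gd B (u + (2 - th)) - Gd B u| ≤ C / u ∧ |Gd B (u + 1) - Gd B u| ≤ C / √u

/-- KRON: effective Kronecker theorem for `log_2 3`. -/
def KronStatement : Prop :=
  ∃ C : ℝ, 0 < C ∧ ∀ Q s : ℝ, 1 ≤ Q → 0 ≤ s → s ≤ 1 → ∃ α β : ℤ,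
    |(α : ℝ)| ≤ C * Q ^ 18 ∧ |(β : ℝ)| ≤ C * Q ^ 18 ∧ |α * (2 - th) + β - s| ≤ 1 / Q

/-- SHIFTS: all shifts. -/
def ShiftsStatement : Prop :=
  ∃ C u₀ : ℝ, 0 < C ∧ ∀ (d : Bool) (B : Set ℕ) (lo : ℕ) (u s : ℝ),
    u₀ ≤ u → (lo : ℝ) ≤ 85 / 100 * u → InvA d B lo → |s| ≤ u / 30 →
    |Gd B (u + s) - Gd B u| ≤ C * (|s| / u + u ^ (-(1 / 38) : ℝ))

/-- CONV: convergence of the block densities. -/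
def ConvStatement : Prop :=
  ∃ C u₀ : ℝ, 0 < C ∧ ∀ (d : Bool) (B : Set ℕ) (lo : ℕ), InvA d B lo →
    ∃ D : ℝ, 0 ≤ D ∧ D ≤ 1 ∧ ∀ u : ℝ, u₀ ≤ u → (lo : ℝ) ≤ 83 / 100 * u →
      |Gd B u - D| ≤ C * u ^ (-(1 / 38) : ℝ)

/-- COUNT: natural density, with a uniform error. -/
def CountStatement : Prop :=
  ∃ C : ℝ, 0 < C ∧ ∀ (d : Bool) (B : Set ℕ) (lo : ℕ), InvA d B lo →
    ∃ D : ℝ, 0 ≤ D ∧ D ≤ 1 ∧ ∀ X : ℝ, 2 ≤ X →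
      |({N : ℕ | N ∈ B ∧ 1 ≤ N ∧ (N : ℝ) ≤ X}.ncard : ℝ) - D * X| ≤
        C * (X * Real.log X ^ (-(1 / 38) : ℝ) + 4 ^ lo)

/-- ZDEN: the theorem on the integers. -/
def ZDenStatement : Prop :=
  ∃ C : ℝ, 0 < C ∧ ∀ (d : Bool) (y : ℝ) (S : Set ℤ), 1 ≤ y →
    (∀ x : ℤ, y ≤ |(x : ℝ)| → (x ∈ S ↔ TZ x ∈ S)) →
    ∃ D : ℝ, 0 ≤ D ∧ D ≤ 1 ∧ HasDens d S D ∧ ∀ X : ℝ, 2 ≤ X →
      |cnt d S X - D * X| ≤ C * (X * Real.log X ^ (-(1 / 38) : ℝ) + y ^ 2)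

/-- SIGMA: countable additivity. -/
def SigmaStatement : Prop :=
  ∀ (d : Bool) (ι : Type) (S : ι → Set ℤ) (δ : ι → ℝ), (∀ j, InvZ (S j)) →
    (∀ j j', j ≠ j' → Disjoint (S j) (S j')) → (∀ j, HasDens d (S j) (δ j)) →
    ∃ D : ℝ, HasSum δ D ∧ HasDens d (⋃ j, S j) D

end Pool.Agent.Lib.MP_edb5be_nt.ND
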