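import Pool.Agent.Lib.MP_0a5adf_nt.TP.Interfaces

/-!
Project ND (MP_edb5be_nt): natural densities of the `T`-invariant sets. Definitions.

`T d`, `od`, `par`, `th`, `mu`, `f`, `Fam`, `Pc`, `xz`, `blk`, `dev`, `typ`, `sg`, `TZ` are those of
the project TAO+ (`Lib/MP_0a5adf_nt/TP/Defs.lean`).
-/

set_option autoImplicit false

namespace Pool.Agent.Lib.MP_edb5be_nt.ND

open Finset Pool.Agent.Lib.MP_0a5adf_nt.TP

/-- Binomial weights. -/
noncomputable def bw (j v : ℕ) : ℝ := (j.choose v : ℝ) / 2 ^ j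

/-- `j` steps of the walk `z ↦ z - 1` or `z - 1 + log_2 3`, each with probability `1 / 2`. -/
noncomputable def PJ (j : ℕ) (F : ℝ → ℝ) (z : ℝ) : ℝ :=
  ∑ v ∈ range (j + 1), bw j v * F (z - j + th * v)

/-- Bounded Lipschitz functions supported in `[0, 1]`. -/
structure Bump (L : ℝ) (g : ℝ → ℝ) : Prop where
  bd : ∀ x, |g x| ≤ 2
  lip : ∀ x y, |g x - g y| ≤ L * |x - y|
  supp : ∀ x, ¬ (0 ≤ x ∧ x ≤ 1) → g x = 0

/-- The integers `1, ..., 2 ^ (z + 1)`. -/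
noncomputable def upto (z : ℝ) : Finset ℕ := Icc 1 ⌊(2 : ℝ) ^ (z + 1)⌋₊

open Classical in
/-- The logarithmic mass of `B` with the weight `g (log_2 N - z)`. -/
noncomputable def Fm (B : Set ℕ) (g : ℝ → ℝ) (z : ℝ) : ℝ :=
  ∑ N ∈ (upto z).filter (fun N => N ∈ B), g (Real.logb 2 N - z) / N

open Classical in
/-- The same mass, weighted by the law of the words with `m` odd steps and length `c`. -/
noncomputable def Rm (d : Bool) (B : Set ℕ) (g : ℝ → ℝ) (m c : ℕ) (t : ℝ) : ℝ :=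
  ∑ M ∈ (upto t).filter (fun M => M ∈ B),
    g (Real.logb 2 M - t) / M * (3 ^ m * f m c ((sg d * M : ℤ) : ZMod (3 ^ m)))

/-- The proportion of the elements of `B` in `[2 ^ u, 2 ^ (u + 1))`, `u` real. -/
noncomputable def Gd (B : Set ℕ) (u : ℝ) : ℝ :=
  ({N : ℕ | N ∈ B ∧ (2 : ℝ) ^ u ≤ N ∧ (N : ℝ) < 2 ^ (u + 1)}.ncard : ℝ) / 2 ^ u

/-- `B` is invariant above `2 ^ lo`. -/
def InvA (d : Bool) (B : Set ℕ) (lo : ℕ) : Prop := ∀ n : ℕ, 2 ^ lo ≤ n → (n ∈ B ↔ T d n ∈ B)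

/-- Number of the `x ∈ S` with `0 < x ≤ X` (`d = true`) or `0 < -x ≤ X` (`d = false`). -/
noncomputable def cnt (d : Bool) (S : Set ℤ) (X : ℝ) : ℝ :=
  ({x : ℤ | x ∈ S ∧ 0 < sg d * x ∧ ((sg d * x : ℤ) : ℝ) ≤ X}.ncard : ℝ)

/-- `S` has natural density `D` in the positive (`d = true`) or negative integers. -/
def HasDens (d : Bool) (S : Set ℤ) (D : ℝ) : Prop :=
  Filter.Tendsto (fun X : ℝ => cnt d S X / X) Filter.atTop (nhds D)

/-- `S` is a union of grand orbits of the 3x+1 map. -/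
def InvZ (S : Set ℤ) : Prop := ∀ x : ℤ, x ∈ S ↔ TZ x ∈ S

end Pool.Agent.Lib.MP_edb5be_nt.ND
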